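import Pool.Agent.Helper15.WA.LocDefs
import Pool.Agent.Helper9.GWA.GNear

/-!
# Module INF3: the parameter `x / y` near zero at the complex place
-/

namespace GWA

open Topology

/-! ### general normed fields -/

section general

variable {K : Type*} [NormedField K]

theorem i3_tt_zero {d : K} : tt (0 : E d) = 0 := by simp [tt]

theorem i3_tt_neg {d : K} (P : E d) : tt (-P) = - tt P := by
  unfold tt
  rw [xc_neg, yc_neg, div_neg]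

/-- size of `tt` -/
theorem i3_norm_tt {d : K} (hd : d ≠ 0) {P : E d} (h : 2 * ‖d‖ ≤ ‖xc P‖) :
    xc P ≠ 0 ∧ yc P ≠ 0 ∧ 4 / 5 ≤ ‖tt P‖ ^ 2 * ‖xc P‖ ∧ ‖tt P‖ ^ 2 * ‖xc P‖ ≤ 4 / 3 := by
  have hd' : 0 < ‖d‖ := norm_pos_iff.2 hd
  have hx : 0 < ‖xc P‖ := by linarith
  have e := curve_eq P
  set x := xc P with hxdef
  set y := yc P with hydef
  have h1 : ‖d‖ ^ 2 * ‖x‖ ≤ ‖x‖ ^ 3 / 4 := by
    have : ‖d‖ ^ 2 ≤ ‖x‖ ^ 2 / 4 := by nlinarith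
    calc ‖d‖ ^ 2 * ‖x‖ ≤ ‖x‖ ^ 2 / 4 * ‖x‖ := mul_le_mul_of_nonneg_right this hx.le
      _ = ‖x‖ ^ 3 / 4 := by ring
  have h2 : ‖y‖ ^ 2 ≤ 5 / 4 * ‖x‖ ^ 3 := by
    rw [← norm_pow, e]
    refine (norm_sub_le _ _).trans ?_
    rw [norm_mul, norm_pow, norm_pow]
    linarith
  have h3 : 3 / 4 * ‖x‖ ^ 3 ≤ ‖y‖ ^ 2 := by
    have e' : ‖y‖ ^ 2 = ‖x ^ 3 - d ^ 2 * x‖ := by rw [← norm_pow, e]
    rw [e']
    have := norm_sub_norm_le (x ^ 3) (d ^ 2 * x)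
    rw [norm_mul, norm_pow, norm_pow] at this
    linarith
  have hy2 : 0 < ‖y‖ ^ 2 := lt_of_lt_of_le (by positivity) h3
  have hy : y ≠ 0 := by
    intro h0
    rw [h0, norm_zero] at hy2
    norm_num at hy2
  have ht : ‖tt P‖ ^ 2 * ‖x‖ = ‖x‖ ^ 3 / ‖y‖ ^ 2 := by
    have : tt P = x / y := rfl
    rw [this, norm_div]
    field_simp
  refine ⟨norm_pos_iff.1 hx, hy, ?_, ?_⟩
  · rw [ht, le_div_iff₀ hy2]
    linarith
  · rw [ht, div_le_iff₀ hy2]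
    linarith

theorem i3_norm_tt_le {d : K} (hd : d ≠ 0) {P : E d} {R : ℝ} (hR : 2 * ‖d‖ ≤ R)
    (h : R ≤ ‖xc P‖) : ‖tt P‖ ^ 2 * R ≤ 4 / 3 := by
  obtain ⟨-, -, -, h4⟩ := i3_norm_tt hd (hR.trans h)
  refine le_trans ?_ h4
  exact mul_le_mul_of_nonneg_left h (by positivity)

variable [DecidableEq K]

/-- near additivity of `tt` -/
theorem i3_tt_add {d : K} (hd : d ≠ 0) {P Q : E d} {R : ℝ} (hR : 2 * ‖d‖ ≤ R)
    (hP : P ≠ 0) (hQ : Q ≠ 0) (hS : P + Q ≠ 0) (hP' : R ≤ ‖xc P‖) (hQ' : R ≤ ‖xc Q‖)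
    (hS' : R ≤ ‖xc (P + Q)‖) :
    ‖tt (P + Q) - tt P - tt Q‖ ≤ 6 * ‖d‖ ^ 2 / R ^ 2 * ‖tt P‖ := by
  have hd' : 0 < ‖d‖ := norm_pos_iff.2 hd
  have hR0 : 0 < R := by linarith
  obtain ⟨L, c, h1, h2, h3, h4, h5, h6⟩ := line_add hP hQ hS
  obtain ⟨p1, p2, -, -⟩ := i3_norm_tt hd (hR.trans hP')
  obtain ⟨q1, q2, -, -⟩ := i3_norm_tt hd (hR.trans hQ')
  obtain ⟨s1, s2, -, -⟩ := i3_norm_tt hd (hR.trans hS')
  have tQ := i3_norm_tt_le hd hR hQ'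
  have tS := i3_norm_tt_le hd hR hS'
  have hc : c ≠ 0 := by
    rintro rfl
    have : xc P * xc Q * xc (P + Q) = 0 := by linear_combination h6
    exact mul_ne_zero (mul_ne_zero p1 q1) s1 this
  have key : tt (P + Q) - tt P - tt Q = -(2 * d ^ 2 * (L / c) * (tt P * tt Q * tt (P + Q))) := by
    unfold tt
    field_simp
    rw [h1, h2, h3]
    linear_combination (c ^ 3) * h4 + (2 * L * c ^ 2) * h5 + (3 * L ^ 2 * c + 2 * d ^ 2 * L) * h6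
  have hcn : 0 < ‖c‖ := norm_pos_iff.2 hc
  have hc2 : ‖c‖ ^ 2 = ‖xc P‖ * ‖xc Q‖ * ‖xc (P + Q)‖ := by
    rw [← norm_pow, ← h6, norm_mul, norm_mul]
  have bP : ‖xc P‖ ≤ ‖c‖ ^ 2 / R ^ 2 := by
    rw [le_div_iff₀ (by positivity), hc2]
    have : R * R ≤ ‖xc Q‖ * ‖xc (P + Q)‖ := mul_le_mul hQ' hS' hR0.le (norm_nonneg _)
    nlinarith [norm_nonneg (xc P)]
  have bQ : ‖xc Q‖ ≤ ‖c‖ ^ 2 / R ^ 2 := by
    rw [le_div_iff₀ (by positivity), hc2]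
    have : R * R ≤ ‖xc P‖ * ‖xc (P + Q)‖ := mul_le_mul hP' hS' hR0.le (norm_nonneg _)
    nlinarith [norm_nonneg (xc Q)]
  have bS : ‖xc (P + Q)‖ ≤ ‖c‖ ^ 2 / R ^ 2 := by
    rw [le_div_iff₀ (by positivity), hc2]
    have : R * R ≤ ‖xc P‖ * ‖xc Q‖ := mul_le_mul hP' hQ' hR0.le (norm_nonneg _)
    nlinarith [norm_nonneg (xc (P + Q))]
  have bL : ‖L‖ ^ 2 ≤ 3 * (‖c‖ ^ 2 / R ^ 2) := by
    rw [← norm_pow, ← h4]
    refine (norm_add_le _ _).trans ?_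
    have := norm_add_le (xc P) (xc Q)
    linarith
  have bLc : ‖L / c‖ ≤ 2 / R := by
    rw [norm_div, div_le_iff₀ hcn]
    apply le_of_sq_le_sq _ (by positivity)
    refine bL.trans ?_
    have : (2 / R * ‖c‖) ^ 2 = 4 * (‖c‖ ^ 2 / R ^ 2) := by
      field_simp
      ring
    rw [this]
    have : 0 ≤ ‖c‖ ^ 2 / R ^ 2 := by positivity
    linarith
  have bt : ‖tt Q‖ * ‖tt (P + Q)‖ ≤ 4 / (3 * R) := by
    have e1 : ‖tt Q‖ ^ 2 ≤ 4 / (3 * R) := by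
      rw [le_div_iff₀ (by positivity)]
      linarith
    have e2 : ‖tt (P + Q)‖ ^ 2 ≤ 4 / (3 * R) := by
      rw [le_div_iff₀ (by positivity)]
      linarith
    nlinarith [sq_nonneg (‖tt Q‖ - ‖tt (P + Q)‖)]
  rw [key, norm_neg, norm_mul, norm_mul, norm_mul, norm_mul, norm_mul, norm_pow]
  have h2n : ‖(2 : K)‖ ≤ 2 := by
    have := Nat.norm_cast_le (α := K) 2
    rw [norm_one] at this
    norm_num at this
    exact this
  calc ‖(2 : K)‖ * ‖d‖ ^ 2 * ‖L / c‖ * (‖tt P‖ * ‖tt Q‖ * ‖tt (P + Q)‖)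
      = ‖(2 : K)‖ * ‖d‖ ^ 2 * ‖L / c‖ * (‖tt Q‖ * ‖tt (P + Q)‖) * ‖tt P‖ := by ring
    _ ≤ 2 * ‖d‖ ^ 2 * (2 / R) * (4 / (3 * R)) * ‖tt P‖ := by gcongr
    _ ≤ 6 * ‖d‖ ^ 2 / R ^ 2 * ‖tt P‖ := by
        apply mul_le_mul_of_nonneg_right _ (norm_nonneg _)
        have : 2 * ‖d‖ ^ 2 * (2 / R) * (4 / (3 * R)) = 16 / 3 * (‖d‖ ^ 2 / R ^ 2) := by
          field_simp
          ring
        rw [this]
        have h0 : 0 ≤ ‖d‖ ^ 2 / R ^ 2 := by positivity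
        have : 6 * ‖d‖ ^ 2 / R ^ 2 = 6 * (‖d‖ ^ 2 / R ^ 2) := by ring
        rw [this]
        linarith

theorem i3_tt_add_max [NeZero (2 : K)] {c : ℝ} (hc : 1 < c) {d : K} (hd : d ≠ 0) {κ : ℝ}
    (hκ : 0 < κ) : ∃ m, ∀ P ∈ nbh c d m,
    ∀ Q ∈ nbh c d m, ‖tt (P + Q) - tt P - tt Q‖ ≤ κ * max ‖tt P‖ ‖tt Q‖ := by
  have hd' : 0 < ‖d‖ := norm_pos_iff.2 hd
  set R : ℝ := 2 * ‖d‖ * (1 + 6 / κ) with hR
  have hR1 : 2 * ‖d‖ ≤ R := by
    have : 0 < 6 / κ := by positivity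
    rw [hR]
    nlinarith
  have hR0 : 0 < R := by linarith
  have hR2 : 6 * ‖d‖ ^ 2 / R ^ 2 ≤ κ := by
    rw [div_le_iff₀ (by positivity), hR]
    have h1 : κ * (2 * ‖d‖ * (1 + 6 / κ)) ^ 2 = 4 * ‖d‖ ^ 2 * (κ + 12 + 36 / κ) := by
      field_simp
      ring
    rw [h1]
    have : 0 < 36 / κ := by positivity
    nlinarith [sq_nonneg ‖d‖]
  obtain ⟨m, hm⟩ := exists_nbh_far hc hd (32 * R + 2 * ‖d‖ + 1)
  refine ⟨m, fun P hP Q hQ => ?_⟩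
  have hκm : 0 ≤ κ * max ‖tt P‖ ‖tt Q‖ := by positivity
  have fP := hm m le_rfl P hP
  have fQ := hm m le_rfl Q hQ
  by_cases hP0 : P = 0
  · subst hP0
    rw [zero_add, i3_tt_zero, sub_zero, sub_self, norm_zero]
    positivity
  by_cases hQ0 : Q = 0
  · subst hQ0
    rw [add_zero, i3_tt_zero, sub_zero, sub_self, norm_zero]
    positivity
  by_cases hS0 : P + Q = 0
  · have hQP : Q = -P := (neg_eq_of_add_eq_zero_right hS0).symm
    rw [hS0, i3_tt_zero]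
    rw [hQP, i3_tt_neg] at hκm ⊢
    rw [zero_sub, sub_neg_eq_add, neg_add_cancel, norm_zero]
    exact hκm
  have fS := far_add d hR0 fP fQ
  have fP' := (fP.mono (by linarith : R ≤ _)).resolve_left hP0
  have fQ' := (fQ.mono (by linarith : R ≤ _)).resolve_left hQ0
  have fS' := fS.resolve_left hS0
  refine (i3_tt_add hd hR1 hP0 hQ0 hS0 fP' fQ' fS').trans ?_
  exact mul_le_mul hR2 (le_max_left _ _) (norm_nonneg _) hκ.le

end general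

/-! ### the complex place -/

section INF

variable [Algebra GaussianInt ℂ] [DecidableEq ℂ]

theorem inf_tt_add {d : ℂ} (hd : d ≠ 0) {κ : ℝ} (hκ : 0 < κ) : ∃ m, ∀ P ∈ nbh 2 d m,
    ∀ Q ∈ nbh 2 d m, ‖tt (P + Q) - tt P - tt Q‖ ≤ κ * max ‖tt P‖ ‖tt Q‖ :=
  i3_tt_add_max (by norm_num) hd hκ

omit [Algebra GaussianInt ℂ] [DecidableEq ℂ] in
theorem i3_pow_le (d : ℂ) (n : ℕ) : 2 * ‖d‖ ≤ 2 ^ (2 * n + 1) * ‖d‖ := by
  apply mul_le_mul_of_nonneg_right _ (norm_nonneg _)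
  calc (2 : ℝ) = 2 ^ 1 := by norm_num
    _ ≤ 2 ^ (2 * n + 1) := pow_le_pow_right₀ (by norm_num) (by omega)

omit [Algebra GaussianInt ℂ] [DecidableEq ℂ] in
/-- membership from the size of `tt` -/
theorem i3_mem_of_tt {d : ℂ} (hd : d ≠ 0) {m n : ℕ} {P : E d} (hP : P ∈ nbh 2 d m)
    (h : ‖tt P‖ ^ 2 * (2 ^ (2 * n + 1) * ‖d‖) ≤ 4 / 5) : P ∈ nbh 2 d n := by
  rcases hP with hP | hP
  · exact Or.inl hP
  right
  obtain ⟨h1, h2, h3, -⟩ := i3_norm_tt hd ((i3_pow_le d m).trans hP)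
  have h4 : 0 < ‖tt P‖ ^ 2 := by
    have : tt P ≠ 0 := div_ne_zero h1 h2
    have := norm_pos_iff.2 this
    positivity
  exact le_of_mul_le_mul_left (h.trans h3) h4

omit [Algebra GaussianInt ℂ] [DecidableEq ℂ] in
theorem i3_tt_of_mem {d : ℂ} (hd : d ≠ 0) {n : ℕ} {P : E d} (hP : P ∈ nbh 2 d n) :
    ‖tt P‖ ^ 2 * (2 ^ (2 * n + 1) * ‖d‖) ≤ 4 / 3 := by
  rcases hP with hP | hP
  · rw [hP, i3_tt_zero, norm_zero]
    norm_num
  · exact i3_norm_tt_le hd (i3_pow_le d n) hP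

omit [Algebra GaussianInt ℂ] [DecidableEq ℂ] in
theorem i3_tt_ne {d : ℂ} (hd : d ≠ 0) {n : ℕ} {P : E d} (hP : P ∈ nbh 2 d n) (h0 : P ≠ 0) :
    0 < ‖tt P‖ := by
  obtain ⟨h1, h2, -⟩ := i3_norm_tt hd ((i3_pow_le d n).trans (hP.resolve_left h0))
  exact norm_pos_iff.2 (div_ne_zero h1 h2)

omit [DecidableEq ℂ] in
theorem i3_II : II ℂ = Complex.I ∨ II ℂ = -Complex.I := by
  have h := II_sq ℂ
  rw [← Complex.I_sq] at h
  exact sq_eq_sq_iff_eq_or_eq_neg.1 h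

theorem i3_tt_gi (d : ℂˣ) (P : E (d : ℂ)) : tt (gi • P) = II ℂ * tt P := by
  unfold tt
  rw [xc_gi_smul, yc_gi_smul]
  have h := II_sq ℂ
  have hI : II ℂ ≠ 0 := II_ne
  by_cases hy : yc P = 0
  · rw [hy]
    simp
  · field_simp
    rw [h]
    ring

omit [Algebra GaussianInt ℂ] [DecidableEq ℂ] in
/-- one of the four units gives a good approximation -/
theorem i3_unit (z w : ℂ) : ∃ k : ℕ, k < 4 ∧
    ‖z - Complex.I ^ k * w‖ ^ 2 ≤ ‖z‖ ^ 2 - 7 / 5 * ‖z‖ * ‖w‖ + ‖w‖ ^ 2 := by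
  have hn : ∀ u : ℂ, ‖u‖ = 1 → ‖z - u * w‖ ^ 2 =
      ‖z‖ ^ 2 - 2 * (z * (starRingEnd ℂ) (u * w)).re + ‖w‖ ^ 2 := by
    intro u hu
    have h1 := Complex.normSq_sub z (u * w)
    rw [Complex.normSq_eq_norm_sq, Complex.normSq_eq_norm_sq, Complex.normSq_eq_norm_sq,
      norm_mul, hu, one_mul] at h1
    rw [h1]
    ring
  set ζ := z * (starRingEnd ℂ) w with hζ
  have hzn : ‖z‖ * ‖w‖ = ‖ζ‖ := by rw [hζ, norm_mul, Complex.norm_conj]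
  have h2 : ‖ζ‖ ^ 2 = ζ.re ^ 2 + ζ.im ^ 2 := by
    rw [← Complex.normSq_eq_norm_sq, Complex.normSq_apply]
    ring
  have h3 : 7 / 10 * ‖ζ‖ ≤ max |ζ.re| |ζ.im| := by
    by_contra hlt
    push Not at hlt
    have ha : |ζ.re| < 7 / 10 * ‖ζ‖ := (le_max_left _ _).trans_lt hlt
    have hb : |ζ.im| < 7 / 10 * ‖ζ‖ := (le_max_right _ _).trans_lt hlt
    have ha2 : ζ.re ^ 2 ≤ (7 / 10 * ‖ζ‖) ^ 2 := by
      rw [← sq_abs]
      exact pow_le_pow_left₀ (abs_nonneg _) ha.le 2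
    have hb2 : ζ.im ^ 2 ≤ (7 / 10 * ‖ζ‖) ^ 2 := by
      rw [← sq_abs]
      exact pow_le_pow_left₀ (abs_nonneg _) hb.le 2
    have hpos : 0 < ‖ζ‖ := by
      have := (abs_nonneg _).trans_lt ha
      linarith
    nlinarith
  have hre : ∀ u : ℂ, (z * (starRingEnd ℂ) (u * w)).re = (ζ * (starRingEnd ℂ) u).re := by
    intro u
    rw [map_mul, hζ]
    congr 1
    ring
  rcases le_max_iff.1 h3 with h4 | h4
  · rcases le_or_gt 0 ζ.re with h5 | h5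
    · rw [abs_of_nonneg h5] at h4
      refine ⟨0, by norm_num, ?_⟩
      rw [hn _ (by simp), hre]
      simp only [pow_zero, map_one, mul_one]
      nlinarith
    · rw [abs_of_neg h5] at h4
      refine ⟨2, by norm_num, ?_⟩
      rw [hn _ (by simp), hre]
      simp only [Complex.I_sq, map_neg, map_one, mul_neg, mul_one, Complex.neg_re]
      nlinarith
  · rcases le_or_gt 0 ζ.im with h5 | h5
    · rw [abs_of_nonneg h5] at h4
      refine ⟨1, by norm_num, ?_⟩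
      rw [hn _ (by simp), hre]
      simp only [pow_one, Complex.conj_I, mul_neg, Complex.neg_re, Complex.mul_re, Complex.I_re,
        Complex.I_im]
      nlinarith
    · rw [abs_of_neg h5] at h4
      refine ⟨3, by norm_num, ?_⟩
      have hI3 : Complex.I ^ 3 = -Complex.I := by
        rw [pow_succ, Complex.I_sq]
        ring
      rw [hn _ (by simp), hre, hI3]
      simp only [map_neg, Complex.conj_I, neg_neg, Complex.mul_re, Complex.I_re, Complex.I_im]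
      nlinarith

/-- the version for the algebra structure -/
theorem i3_unit' (d : ℂˣ) (z : ℂ) (P : E (d : ℂ)) : ∃ u : GaussianInt,
    ‖z - tt (u • P)‖ ^ 2 ≤ ‖z‖ ^ 2 - 7 / 5 * ‖z‖ * ‖tt P‖ + ‖tt P‖ ^ 2 ∧
      ‖tt (u • P)‖ = ‖tt P‖ ∧ ∀ n, P ∈ nbh 2 (d : ℂ) n → u • P ∈ nbh 2 (d : ℂ) n := by
  have hpow : ∀ k : ℕ, tt ((gi ^ k) • P) = II ℂ ^ k * tt P ∧
      ∀ n, P ∈ nbh 2 (d : ℂ) n → (gi ^ k) • P ∈ nbh 2 (d : ℂ) n := by
    intro k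
    induction k with
    | zero => exact ⟨by simp, fun n hn => by simpa using hn⟩
    | succ k ih =>
      have e : (gi ^ (k + 1)) • P = gi • (gi ^ k) • P := by rw [pow_succ', mul_smul]
      refine ⟨?_, fun n hn => ?_⟩
      · rw [e, i3_tt_gi, ih.1]
        ring
      · rw [e]
        rcases ih.2 n hn with h | h
        · left
          rw [h, smul_zero]
        · right
          rwa [xc_gi_smul, norm_neg]
  have hnII : ‖II ℂ‖ = 1 := by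
    rcases i3_II with h | h <;> rw [h] <;> simp
  obtain ⟨k, -, hk⟩ := i3_unit z (tt P)
  have hj : ∃ j : ℕ, II ℂ ^ j = Complex.I ^ k := by
    rcases i3_II with h | h
    · exact ⟨k, by rw [h]⟩
    · refine ⟨3 * k, ?_⟩
      rw [h, pow_mul]
      congr 1
      rw [neg_pow, pow_succ, pow_succ, pow_succ, Complex.I_pow_three]
      ring
  obtain ⟨j, hj⟩ := hj
  refine ⟨gi ^ j, ?_, ?_, (hpow j).2⟩
  · rw [(hpow j).1, hj]
    exact hk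
  · rw [(hpow j).1, norm_mul, norm_pow, hnII, one_pow, one_mul]

/-- one step of the approximation -/
theorem i3_step (d : ℂˣ) {m m' : ℕ} (hmm : m ≤ m')
    (hadd : ∀ P ∈ nbh 2 (d : ℂ) m, ∀ Q ∈ nbh 2 (d : ℂ) m,
      ‖tt (P + Q) - tt P - tt Q‖ ≤ 1 / 100 * max ‖tt P‖ ‖tt Q‖)
    (hsum : ∀ P ∈ nbh 2 (d : ℂ) m', ∀ Q ∈ nbh 2 (d : ℂ) m', P + Q ∈ nbh 2 (d : ℂ) m)
    {η ξ : E (d : ℂ)} (hη : η ∈ nbh 2 (d : ℂ) m') (hη0 : η ≠ 0)
    (hξ : ξ ∈ nbh 2 (d : ℂ) m')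
    (hξt : ‖tt ξ‖ ^ 2 * (2 ^ (2 * m' + 1) * ‖(d : ℂ)‖) ≤ 4 / 5)
    (hs : 10 * ‖tt η‖ < ‖tt ξ‖) :
    ∃ α : GaussianInt, ξ - α • η ∈ nbh 2 (d : ℂ) m' ∧
      ‖tt (ξ - α • η)‖ ≤ 19 / 20 * ‖tt ξ‖ := by
  have hd := d.ne_zero
  have hanti : ∀ {P : E (d : ℂ)}, P ∈ nbh 2 (d : ℂ) m' → P ∈ nbh 2 (d : ℂ) m :=
    fun hP => nbh_anti' (by norm_num) hmm hP
  have hηt := i3_tt_ne hd hη hη0
  set s := ‖tt ξ‖ with hsdef
  have hs0 : 0 < s := by linarith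
  -- smallness gives membership
  have hback : ∀ {P : E (d : ℂ)}, P ∈ nbh 2 (d : ℂ) m → ‖tt P‖ ≤ s → P ∈ nbh 2 (d : ℂ) m' := by
    intro P hP hPs
    apply i3_mem_of_tt hd hP
    refine le_trans ?_ hξt
    apply mul_le_mul_of_nonneg_right _ (by positivity)
    exact pow_le_pow_left₀ (norm_nonneg _) hPs 2
  -- doubling
  have hdbl : ∀ k : ℕ, (∃ β : GaussianInt, β • η ∈ nbh 2 (d : ℂ) m' ∧
      s / 10 ≤ ‖tt (β • η)‖ ∧ ‖tt (β • η)‖ ≤ s / 4) ∨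
      (((2 : GaussianInt) ^ k) • η ∈ nbh 2 (d : ℂ) m' ∧
        (3 / 2 : ℝ) ^ k * ‖tt η‖ ≤ ‖tt (((2 : GaussianInt) ^ k) • η)‖ ∧
        ‖tt (((2 : GaussianInt) ^ k) • η)‖ < s / 10) := by
    intro k
    induction k with
    | zero =>
      right
      refine ⟨by simpa using hη, by simp, ?_⟩
      simp only [pow_zero, one_smul]
      linarith
    | succ k ih =>
      rcases ih with h | ⟨h1, h2, h3⟩
      · exact Or.inl h
      set P := ((2 : GaussianInt) ^ k) • η with hP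
      have e : ((2 : GaussianInt) ^ (k + 1)) • η = P + P := by
        rw [pow_succ', mul_smul, ← hP]
        have := add_smul (1 : GaussianInt) 1 P
        rw [one_smul] at this
        rw [← this]
        norm_num
      have h4 := hadd P (hanti h1) P (hanti h1)
      rw [max_self] at h4
      have h5 : ‖tt (P + P)‖ ≤ 201 / 100 * ‖tt P‖ := by
        have : tt (P + P) = (tt (P + P) - tt P - tt P) + 2 * tt P := by ring
        rw [this]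
        refine (norm_add_le _ _).trans ?_
        have h6 : ‖2 * tt P‖ = 2 * ‖tt P‖ := by rw [norm_mul]; simp
        rw [h6]
        linarith
      have h7 : 199 / 100 * ‖tt P‖ ≤ ‖tt (P + P)‖ := by
        have h6 : ‖2 * tt P‖ = 2 * ‖tt P‖ := by rw [norm_mul]; simp
        have h8 : 2 * tt P = tt (P + P) - (tt (P + P) - tt P - tt P) := by ring
        have h9 := norm_sub_le (tt (P + P)) (tt (P + P) - tt P - tt P)
        rw [← h8, h6] at h9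
        linarith
      have hPP : P + P ∈ nbh 2 (d : ℂ) m' := hback (hsum P h1 P h1) (by linarith)
      by_cases h10 : s / 10 ≤ ‖tt (P + P)‖
      · left
        refine ⟨(2 : GaussianInt) ^ (k + 1), ?_, ?_, ?_⟩
        · rw [e]; exact hPP
        · rw [e]; exact h10
        · rw [e]; linarith
      · right
        push Not at h10
        rw [e]
        refine ⟨hPP, ?_, h10⟩
        have : (3 / 2 : ℝ) ^ (k + 1) * ‖tt η‖ = 3 / 2 * ((3 / 2 : ℝ) ^ k * ‖tt η‖) := by ring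
        rw [this]
        have := norm_nonneg (tt P)
        linarith
  obtain ⟨β, hβ1, hβ2, hβ3⟩ : ∃ β : GaussianInt, β • η ∈ nbh 2 (d : ℂ) m' ∧
      s / 10 ≤ ‖tt (β • η)‖ ∧ ‖tt (β • η)‖ ≤ s / 4 := by
    obtain ⟨k, hk⟩ := pow_unbounded_of_one_lt (s / ‖tt η‖) (by norm_num : (1 : ℝ) < 3 / 2)
    rcases hdbl k with h | ⟨-, h2, h3⟩
    · exact h
    · exfalso
      rw [div_lt_iff₀ hηt] at hk
      linarith
  -- subtract a unit multiple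
  obtain ⟨u, hu1, hu2, hu3⟩ := i3_unit' d (tt ξ) (β • η)
  set P := β • η with hP
  set a := ‖tt P‖ with ha
  have hu4 : ‖tt ξ - tt (u • P)‖ ≤ 47 / 50 * s := by
    apply le_of_sq_le_sq _ (by positivity)
    refine hu1.trans ?_
    have : (a - s / 10) * (s / 4 - a) ≥ 0 := mul_nonneg (by linarith) (by linarith)
    nlinarith
  refine ⟨u * β, ?_⟩
  have e : ξ - (u * β) • η = ξ + -(u • P) := by rw [mul_smul, sub_eq_add_neg]
  rw [e]
  have hm1 : -(u • P) ∈ nbh 2 (d : ℂ) m' := neg_mem_nbh (hu3 _ hβ1)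
  have h4 := hadd ξ (hanti hξ) (-(u • P)) (hanti hm1)
  rw [i3_tt_neg, norm_neg, hu2] at h4
  have hmax : max ‖tt ξ‖ a ≤ s := max_le le_rfl (by linarith)
  have h5 : ‖tt (ξ + -(u • P))‖ ≤ 19 / 20 * s := by
    have : tt (ξ + -(u • P)) =
        (tt (ξ + -(u • P)) - tt ξ - - tt (u • P)) + (tt ξ - tt (u • P)) := by ring
    rw [this]
    refine (norm_add_le _ _).trans ?_
    linarith
  exact ⟨hback (hsum ξ hξ _ hm1) (by linarith), h5⟩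

/-- the multiples of a small nonzero point are dense near zero -/
theorem inf_gen (d : ℂˣ) : ∃ m₀, ∀ n, ∃ N, ∀ η ∈ nbh 2 (d : ℂ) N, η ≠ 0 →
    ∀ ξ ∈ nbh 2 (d : ℂ) m₀, ∃ α : GaussianInt, ξ - α • η ∈ nbh 2 (d : ℂ) n := by
  have hd := d.ne_zero
  have hd' : 0 < ‖(d : ℂ)‖ := norm_pos_iff.2 hd
  obtain ⟨m, hadd⟩ := inf_tt_add hd (by norm_num : (0 : ℝ) < 1 / 100)
  obtain ⟨m', hmm, hsum⟩ := nbh_add_shift (by norm_num : (1 : ℝ) < 2) hd m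
  refine ⟨m' + 1, fun n => ⟨max m' (n + 4), fun η hη hη0 ξ hξ => ?_⟩⟩
  have hη' : η ∈ nbh 2 (d : ℂ) m' := nbh_anti' (by norm_num) (le_max_left _ _) hη
  have hηn : η ∈ nbh 2 (d : ℂ) (n + 4) := nbh_anti' (by norm_num) (le_max_right _ _) hη
  have hξ' : ξ ∈ nbh 2 (d : ℂ) m' := nbh_anti' (by norm_num) (Nat.le_succ _) hξ
  have hξt : ‖tt ξ‖ ^ 2 * (2 ^ (2 * m' + 1) * ‖(d : ℂ)‖) ≤ 4 / 5 := by
    have h1 := i3_tt_of_mem hd hξ
    have h2 : (2 : ℝ) ^ (2 * (m' + 1) + 1) = 4 * 2 ^ (2 * m' + 1) := by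
      rw [show 2 * (m' + 1) + 1 = (2 * m' + 1) + 2 by ring, pow_add]
      ring
    rw [h2] at h1
    linarith
  have hηt := i3_tt_ne hd hη' hη0
  -- iterate
  have hit : ∀ k : ℕ, ∃ α : GaussianInt, ξ - α • η ∈ nbh 2 (d : ℂ) m' ∧
      ‖tt (ξ - α • η)‖ ≤ ‖tt ξ‖ ∧
      (‖tt (ξ - α • η)‖ ≤ 10 * ‖tt η‖ ∨ ‖tt (ξ - α • η)‖ ≤ (19 / 20 : ℝ) ^ k * ‖tt ξ‖) := by
    intro k
    induction k with
    | zero => exact ⟨0, by simpa using hξ', by simp, Or.inr (by simp)⟩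
    | succ k ih =>
      obtain ⟨α, h1, h2, h3⟩ := ih
      by_cases h4 : ‖tt (ξ - α • η)‖ ≤ 10 * ‖tt η‖
      · exact ⟨α, h1, h2, Or.inl h4⟩
      have h5 := h3.resolve_left h4
      push Not at h4
      have h6 : ‖tt (ξ - α • η)‖ ^ 2 * (2 ^ (2 * m' + 1) * ‖(d : ℂ)‖) ≤ 4 / 5 := by
        refine le_trans ?_ hξt
        apply mul_le_mul_of_nonneg_right _ (by positivity)
        exact pow_le_pow_left₀ (norm_nonneg _) h2 2
      obtain ⟨β, h7, h8⟩ := i3_step d hmm hadd hsum hη' hη0 h1 h6 h4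
      have e : ξ - (α + β) • η = ξ - α • η - β • η := by rw [add_smul, sub_sub]
      refine ⟨α + β, ?_, ?_, Or.inr ?_⟩
      · rw [e]; exact h7
      · rw [e]
        have := norm_nonneg (tt (ξ - α • η))
        linarith
      · rw [e, pow_succ]
        linarith
  obtain ⟨k, hk⟩ := exists_pow_lt_of_lt_one (x := ‖tt η‖ / (‖tt ξ‖ + 1))
    (by positivity) (by norm_num : (19 / 20 : ℝ) < 1)
  obtain ⟨α, h1, -, h3⟩ := hit k
  refine ⟨α, i3_mem_of_tt hd h1 ?_⟩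
  have h4 : ‖tt (ξ - α • η)‖ ≤ 10 * ‖tt η‖ := by
    rcases h3 with h3 | h3
    · exact h3
    · refine h3.trans ?_
      rw [lt_div_iff₀ (by positivity)] at hk
      have h5 : (0 : ℝ) ≤ (19 / 20 : ℝ) ^ k := by positivity
      nlinarith
  have h5 := i3_tt_of_mem hd hηn
  have h6 : (2 : ℝ) ^ (2 * (n + 4) + 1) = 256 * 2 ^ (2 * n + 1) := by
    rw [show 2 * (n + 4) + 1 = (2 * n + 1) + 8 by ring, pow_add]
    ring
  rw [h6] at h5
  calc ‖tt (ξ - α • η)‖ ^ 2 * (2 ^ (2 * n + 1) * ‖(d : ℂ)‖)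
      ≤ (10 * ‖tt η‖) ^ 2 * (2 ^ (2 * n + 1) * ‖(d : ℂ)‖) := by
        apply mul_le_mul_of_nonneg_right _ (by positivity)
        exact pow_le_pow_left₀ (norm_nonneg _) h4 2
    _ = 100 / 256 * (‖tt η‖ ^ 2 * (256 * 2 ^ (2 * n + 1) * ‖(d : ℂ)‖)) := by ring
    _ ≤ 100 / 256 * (4 / 3) := by linarith
    _ ≤ 4 / 5 := by norm_num

end INF

end GWA
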